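import Pool.Agent.MNW.StmtsA

set_option autoImplicit false

/-!
# Squad MNW, row FNW: finiteness
-/

namespace Pool.Agent.MNW.H39

open Pool.Agent.MNT Pool.Agent.MNW

theorem one_le_HH (g : ℕ) : 1 ≤ HH g := by
  unfold HH
  exact Real.one_le_exp (by positivity)

open Classical in
/-- Row FNW. -/
theorem fnw (hgw : HgwStmt) (ncs : BHT.NCSStmt) : FnwStmt := by
  intro g m hg d
  have hg2 : 2 ≤ g := hg.elim fun _ h => h.g_ge
  have hm9 : 9 ≤ m := hg.elim fun _ h => h.m_ge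
  have hH : 1 ≤ HH g := one_le_HH g
  obtain ⟨F, hF⟩ := ncs (QI g m × QI g m) d (HH g ^ d)
  obtain ⟨p₀, hp₀⟩ : ∃ p₀ : QI g m, p₀ = Sum.inl ⟨0, by omega⟩ := ⟨_, rfl⟩
  refine ⟨F.image fun Y p => Y (p, p₀), ?_⟩
  intro K _ _ hd z e hC φ
  have hx0 : (fun pq : QI g m × QI g m => z pq.1 - z pq.2) ≠ 0 := by
    intro h
    have h2 := congrFun h (Sum.inl ⟨0, by omega⟩, Sum.inr ⟨0, by omega⟩)
    have h3 := hC.inj (sub_eq_zero.1 h2)
    exact absurd h3 (by simp)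
  have hh : Height.mulHeight (fun pq : QI g m × QI g m => z pq.1 - z pq.2) ≤ HH g ^ d :=
    (hgw g m hg K z e hC).trans (pow_le_pow_right₀ hH hd)
  obtain ⟨Y, hY, μ, hμ, hx⟩ := hF K hd _ hx0 hh φ
  refine ⟨fun p => Y (p, p₀), Finset.mem_image_of_mem _ hY, μ, φ (z p₀), hμ, fun p => ?_⟩
  have h4 := hx (p, p₀)
  simp only [map_sub] at h4
  linear_combination h4

end Pool.Agent.MNW.H39
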