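import Pool.Agent.MNW.StmtsA
import Pool.Agent.MNV.Stmts

/-!
# MNW, row RDW: height of the differences of the roots
-/

set_option autoImplicit false

namespace Pool.Agent.MNW.H39

open Polynomial NumberField Pool.Agent.MNT Pool.Agent.MNW
open Pool.Agent.MNV (HxtStmt)

theorem rdw (hgw : HgwStmt) (hxt : HxtStmt) : RdwStmt := by
  intro g m hg K _ _ e θ hR
  have hg2 : 2 ≤ g := hg.elim fun _ h => h.g_ge
  obtain ⟨L, _, _, _, x, hC⟩ := hR
  have hinj : Function.Injective θ := by
    intro i j hij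
    have h1 : (Sum.inl i : QI g m) = Sum.inl j := by
      apply hC.inj
      simp only [Sum.elim_inl, hij]
    exact Sum.inl_injective h1
  obtain ⟨y, hy⟩ : ∃ y : Fin (2 * g + 1) × Fin (2 * g + 1) → K,
      y = fun pq => θ pq.1 - θ pq.2 := ⟨_, rfl⟩
  have hy0 : y ≠ 0 := by
    intro h
    have h1 := congrFun h (⟨0, by omega⟩, ⟨1, by omega⟩)
    rw [hy, Pi.zero_apply, sub_eq_zero] at h1
    have h2 := congrArg Fin.val (hinj h1)
    simp at h2
  have h1 := hgw g m hg L (Sum.elim (fun j => algebraMap K L (θ j)) x) (algebraMap K L e) hC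
  have h2 : (fun i => algebraMap K L (y i)) =
      (fun pq : QI g m × QI g m => (Sum.elim (fun j => algebraMap K L (θ j)) x) pq.1 -
        (Sum.elim (fun j => algebraMap K L (θ j)) x) pq.2) ∘
      (fun pq : Fin (2 * g + 1) × Fin (2 * g + 1) => ((Sum.inl pq.1 : QI g m), (Sum.inl pq.2 : QI g m))) := by
    ext pq
    simp only [hy, Function.comp_apply, Sum.elim_inl, map_sub]
  have h3 := (Height.mulHeight_comp_le
      (fun pq : Fin (2 * g + 1) × Fin (2 * g + 1) =>
        ((Sum.inl pq.1 : QI g m), (Sum.inl pq.2 : QI g m)))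
      (fun pq : QI g m × QI g m => (Sum.elim (fun j => algebraMap K L (θ j)) x) pq.1 -
        (Sum.elim (fun j => algebraMap K L (θ j)) x) pq.2)).trans h1
  rw [← h2, hxt K L _ y hy0] at h3
  have hfin : FiniteDimensional K L := Module.Finite.of_restrictScalars_finite ℚ K L
  rw [← Module.finrank_mul_finrank ℚ K L, pow_mul] at h3
  have h4 : Module.finrank K L ≠ 0 := (Module.finrank_pos (R := K) (M := L)).ne'
  have hH : 0 ≤ HH g := (Real.exp_pos _).le
  have h5 := (pow_le_pow_iff_left₀ (Height.mulHeight_pos y).le (pow_nonneg hH _) h4).1 h3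
  rw [hy] at h5
  exact h5

end Pool.Agent.MNW.H39
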